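import Pool.Agent.H13.HX.TargetsK
import Pool.Agent.H91.HX.NSI

/-!
Board hx_modules, part K, row CDV: the number of preimages is at most the degree.
-/

set_option autoImplicit false

open MvPolynomial
open Pool.Agent.H12.ZD (pmap v O Res)
open Pool.Agent.H18.HIT Pool.Agent.H18.HX Pool.Agent.H13.HX

namespace Pool.Agent.H35.HX

theorem eval_aeval_pmap {L : ℕ} {k : Type} [CommRing k] (f : Tup L k) (x : Fin L → k)
    (q : Po L k) : eval x (aeval f q) = eval (pmap f x) q := by
  induction q using MvPolynomial.induction_on with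
  | C a => rw [algHom_C, eval_C, algebraMap_eq, eval_C]
  | add p q hp hq => rw [map_add, map_add, map_add, hp, hq]
  | mul_X p i hp =>
    rw [map_mul, map_mul, map_mul, hp, aeval_X, eval_X]
    rfl

theorem pf_CDV : T_CDV := by
  classical
  intro L e e' k _ _ I _ f θ hC he' hgen
  obtain ⟨c0, hc0, hpre⟩ := hC
  obtain ⟨s, c, hs, hsc⟩ := hgen (θ ^ e')
  choose si ci hsi hsci using fun i : Fin L => hgen (X i)
  have hprod : ∏ i, si i ∉ I := by
    rw [Ideal.IsPrime.prod_mem_iff]
    push Not
    exact fun i _ => hsi i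
  have hw : c0 * s * ∏ i, si i ∉ I := by
    intro h
    rcases Ideal.IsPrime.mem_or_mem inferInstance h with h1 | h1
    · rcases Ideal.IsPrime.mem_or_mem inferInstance h1 with h2 | h2
      · exact hc0 h2
      · exact hs h2
    · exact hprod h1
  obtain ⟨y, hy, hyw⟩ := Pool.Agent.H91.HX.pf_NSI L k I _ hw
  rw [map_mul, map_mul, map_prod] at hyw
  have hyc : eval y c0 ≠ 0 := fun h => hyw (by rw [h, zero_mul, zero_mul])
  have hys : eval y s ≠ 0 := fun h => hyw (by rw [h, mul_zero, zero_mul])
  have hysi : ∀ i, eval y (si i) ≠ 0 := fun i h => hyw (by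
    rw [Finset.prod_eq_zero (Finset.mem_univ i) h, mul_zero])
  obtain ⟨S, hS, hSx⟩ := hpre y hy hyc
  -- the relations at the points of `S`
  have hrel : ∀ x ∈ S, eval y s * eval x θ ^ e' = ∑ j : Fin e', eval x θ ^ (j : ℕ) *
      eval y (c j) := by
    intro x hx
    obtain ⟨hzx, hpx⟩ := hSx x hx
    have h := hzx _ hsc
    rw [map_sub, map_mul, eval_aeval_pmap, hpx, map_pow, map_sum, sub_eq_zero] at h
    rw [h]
    refine Finset.sum_congr rfl fun j _ => ?_
    rw [map_mul, map_pow, eval_aeval_pmap, hpx]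
  have hreli : ∀ x ∈ S, ∀ i, eval y (si i) * x i = ∑ j : Fin e', eval x θ ^ (j : ℕ) *
      eval y (ci i j) := by
    intro x hx i
    obtain ⟨hzx, hpx⟩ := hSx x hx
    have h := hzx _ (hsci i)
    rw [map_sub, map_mul, eval_aeval_pmap, hpx, eval_X, map_sum, sub_eq_zero] at h
    rw [h]
    refine Finset.sum_congr rfl fun j _ => ?_
    rw [map_mul, map_pow, eval_aeval_pmap, hpx]
  have hinj : Set.InjOn (fun x : Fin L → k => eval x θ) (S : Set (Fin L → k)) := by
    intro x hx x' hx' h
    have h' : eval x θ = eval x' θ := h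
    funext i
    have h1 := hreli x hx i
    have h2 := hreli x' hx' i
    rw [h', ← h2] at h1
    exact mul_left_cancel₀ (hysi i) h1
  -- the polynomial
  obtain ⟨p, hp⟩ : ∃ p : Polynomial k, p = Polynomial.C (eval y s) * Polynomial.X ^ e' -
      ∑ j : Fin e', Polynomial.C (eval y (c j)) * Polynomial.X ^ (j : ℕ) := ⟨_, rfl⟩
  have hlow : (∑ j : Fin e', Polynomial.C (eval y (c j)) *
      (Polynomial.X : Polynomial k) ^ (j : ℕ)).coeff e' = 0 := by
    rw [Polynomial.finsetSum_coeff]
    refine Finset.sum_eq_zero fun j _ => ?_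
    rw [Polynomial.coeff_C_mul, Polynomial.coeff_X_pow, if_neg (by have := j.2; omega),
      mul_zero]
  have hpc : p.coeff e' = eval y s := by
    rw [hp, Polynomial.coeff_sub, hlow, Polynomial.coeff_C_mul, Polynomial.coeff_X_pow,
      if_pos rfl, mul_one, sub_zero]
  have hp0 : p ≠ 0 := by
    intro h
    rw [h, Polynomial.coeff_zero] at hpc
    exact hys hpc.symm
  have hpd : p.natDegree ≤ e' := by
    rw [hp]
    refine (Polynomial.natDegree_sub_le _ _).trans (max_le ?_ ?_)
    · exact Polynomial.natDegree_C_mul_X_pow_le _ _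
    · refine Polynomial.natDegree_sum_le_of_forall_le _ _ fun j _ => ?_
      exact (Polynomial.natDegree_C_mul_X_pow_le _ _).trans j.2.le
  have hroot : ∀ x ∈ S, eval x θ ∈ p.roots.toFinset := by
    intro x hx
    rw [Multiset.mem_toFinset, Polynomial.mem_roots hp0, Polynomial.IsRoot.def, hp,
      Polynomial.eval_sub, Polynomial.eval_mul, Polynomial.eval_C, Polynomial.eval_pow,
      Polynomial.eval_X, hrel x hx, Polynomial.eval_finsetSum, sub_eq_zero]
    refine Finset.sum_congr rfl fun j _ => ?_
    rw [Polynomial.eval_mul, Polynomial.eval_C, Polynomial.eval_pow, Polynomial.eval_X, mul_comm]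
  rw [← hS, ← Finset.card_image_of_injOn hinj]
  calc (S.image fun x => eval x θ).card ≤ p.roots.toFinset.card := by
        refine Finset.card_le_card fun t ht => ?_
        obtain ⟨x, hx, rfl⟩ := Finset.mem_image.1 ht
        exact hroot x hx
    _ ≤ Multiset.card p.roots := Multiset.toFinset_card_le _
    _ ≤ p.natDegree := Polynomial.card_roots' p
    _ ≤ e' := hpd

end Pool.Agent.H35.HX
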