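import Pool.Agent.H18.HX.Targets

/-!
Board hx_modules, row KEA: the leading part of the relation `ε c = 0`.
-/

open MvPolynomial
open Pool.Agent.H12.ZD (pmap v O Res DenseOrbit NoInv)
open Pool.Agent.H18.HIT Pool.Agent.H18.HX

namespace Pool.Agent.H35.HX

theorem coeff_divX_iter {R : Type} [Semiring R] (a : ℕ) : ∀ (p : Polynomial R) (n : ℕ),
    ((Polynomial.divX)^[a] p).coeff n = p.coeff (n + a) := by
  induction a with
  | zero => intro p n; rfl
  | succ a ih =>
    intro p n
    rw [Function.iterate_succ_apply, ih, Polynomial.coeff_divX]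
    congr 1

section

variable {N : ℕ} {k : Type} [CommRing k]

theorem ec_coeff (P : Po (N + 1) k) (j i : ℕ) (m : Fin N →₀ ℕ) :
    coeff (Finsupp.cons i m) (ec P j) = coeff (Finsupp.cons (i + (j + 1)) m) P := by
  rw [← finSuccEquiv_coeff_coeff, ← finSuccEquiv_coeff_coeff]
  unfold ec
  rw [AlgEquiv.apply_symm_apply, coeff_divX_iter]

theorem degree_cons (i : ℕ) (m : Fin N →₀ ℕ) :
    (Finsupp.cons i m).degree = i + m.degree := by
  rw [Finsupp.degree_eq_sum, Finsupp.degree_eq_sum, Fin.sum_univ_succ, Finsupp.cons_zero]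
  rfl

theorem ec_hom (P : Po (N + 1) k) {r j : ℕ} (hP : P.IsHomogeneous r) :
    (ec P j).IsHomogeneous (r - 1 - j) := by
  intro m hm
  have e1 : ∀ m' : Fin (N + 1) →₀ ℕ, Finsupp.weight 1 m' = m'.degree := by
    intro m'
    rw [Finsupp.degree_eq_weight_one]
    rfl
  rw [e1]
  rw [← Finsupp.cons_tail m] at hm ⊢
  rw [ec_coeff] at hm
  have h := hP hm
  rw [e1, degree_cons] at h
  rw [degree_cons]
  omega

theorem hc_mem {L : ℕ} (A g : Po L k) (a n : ℕ) (hA : A.IsHomogeneous a) :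
    homogeneousComponent n (A * g) ∈ Ideal.span {A} := by
  have e : homogeneousComponent n (A * g) = ∑ i ∈ Finset.range (g.totalDegree + 1),
      homogeneousComponent n (A * homogeneousComponent i g) := by
    rw [← map_sum, ← Finset.mul_sum, sum_homogeneousComponent]
  rw [e]
  refine Ideal.sum_mem _ fun i _ => ?_
  have h : (A * homogeneousComponent i g).IsHomogeneous (a + i) :=
    hA.mul (homogeneousComponent_isHomogeneous i g)
  rw [homogeneousComponent_of_mem ((mem_homogeneousSubmodule _ _).2 h)]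
  split_ifs
  · exact Ideal.mul_mem_right _ _ (Ideal.mem_span_singleton_self A)
  · exact Ideal.zero_mem _

/-- the products in the expansion -/
noncomputable def Um (P : Po (N + 1) k) (F : Tup (N + 1) k) (c : Po (N + 1) k) (Q r : ℕ)
    (l : Fin N → Fin r) (j : ℕ) : Po (N + 1) k :=
  (∏ i : Fin N, (F i.succ ^ (l i : ℕ) * (X i.succ ^ Q) ^ (r - 1 - (l i : ℕ)))) *
    ((aeval F (ec P j) * X 0 ^ (Q * j)) * c)

theorem Um_hom (P : Po (N + 1) k) (F : Tup (N + 1) k) (c : Po (N + 1) k) (Q r d γ : ℕ)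
    (hP : P.IsHomogeneous r) (hF : ∀ i, (F i).IsHomogeneous d) (hc : c.IsHomogeneous γ)
    (l : Fin N → Fin r) (j : ℕ) :
    (Um P F c Q r l j).IsHomogeneous
      ((∑ i, (d * (l i : ℕ) + Q * (r - 1 - (l i : ℕ)))) + (d * (r - 1 - j) + Q * j + γ)) := by
  unfold Um
  refine IsHomogeneous.mul (IsHomogeneous.prod _ _ _ fun i _ => ?_) (IsHomogeneous.mul
    (IsHomogeneous.mul ?_ (isHomogeneous_X_pow 0 (Q * j))) hc)
  · exact ((hF i.succ).pow (l i : ℕ)).mul ((isHomogeneous_X_pow i.succ Q).pow _)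
  · exact (ec_hom P hP).aeval F hF

theorem deg_sum {r : ℕ} (d Q : ℕ) (l : Fin N → Fin r) :
    (∑ i, (d * (l i : ℕ) + Q * (r - 1 - (l i : ℕ)))) + Q * ∑ i, (l i : ℕ) =
      d * (∑ i, (l i : ℕ)) + Q * (N * (r - 1)) := by
  have h : Q * (N * (r - 1)) = ∑ i : Fin N, Q * (r - 1) := by
    rw [Finset.sum_const, Finset.card_univ, Fintype.card_fin, smul_eq_mul]
    ring
  rw [h, Finset.mul_sum, Finset.mul_sum, ← Finset.sum_add_distrib, ← Finset.sum_add_distrib]
  refine Finset.sum_congr rfl fun i _ => ?_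
  have h1 : (r - 1 - (l i : ℕ)) + (l i : ℕ) = r - 1 := by
    have := (l i).2
    omega
  calc d * (l i : ℕ) + Q * (r - 1 - (l i : ℕ)) + Q * (l i : ℕ)
      = d * (l i : ℕ) + Q * ((r - 1 - (l i : ℕ)) + (l i : ℕ)) := by ring
    _ = _ := by rw [h1]

end

theorem pf_KEA (hBRL : T_BRL) : T_KEA := by
  classical
  intro N r d Q γ κ _ P F c hr hP hPm hF hdQ hc hmem
  obtain ⟨q, hq0, rfl⟩ : ∃ q, 0 < q ∧ Q = d + q := ⟨Q - d, by omega, by omega⟩
  obtain ⟨Q, hQ⟩ : ∃ Q, Q = d + q := ⟨_, rfl⟩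
  rw [← hQ] at hmem ⊢
  obtain ⟨K, hK⟩ : ∃ K : Fin N → Po (N + 1) κ, K = fun i => ∑ m ∈ Finset.range r,
    F i.succ ^ m * (X i.succ ^ Q) ^ (r - 1 - m) := ⟨_, rfl⟩
  have hKi : ∀ i, K i * (F i.succ - X i.succ ^ Q) = F i.succ ^ r - (X i.succ ^ Q) ^ r := by
    intro i
    rw [hK]
    exact geom_sum₂_mul _ _ _
  -- the element `u`
  obtain ⟨u, hu⟩ : ∃ u, u = (∏ i, K i) * (ep P F r Q * c) := ⟨_, rfl⟩
  have humem : u ∈ Ideal.span (insert P
      (Set.range fun i : Fin N => X i.succ ^ (Q * r) - F i.succ ^ r)) := by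
    rw [hu]
    refine Submodule.span_induction (p := fun y _ => (∏ i, K i) * y ∈ Ideal.span (insert P
      (Set.range fun i : Fin N => X i.succ ^ (Q * r) - F i.succ ^ r))) ?_ ?_ ?_ ?_ hmem
    · rintro y (rfl | ⟨i, rfl⟩)
      · exact Ideal.mul_mem_left _ _ (Ideal.subset_span (Set.mem_insert _ _))
      · rw [← Finset.mul_prod_erase Finset.univ K (Finset.mem_univ i)]
        have e : K i * (∏ x ∈ Finset.univ.erase i, K x) * (X i.succ ^ Q - F i.succ) =
            (∏ x ∈ Finset.univ.erase i, K x) * (X i.succ ^ (Q * r) - F i.succ ^ r) := by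
          have h := hKi i
          rw [← pow_mul] at h
          linear_combination (-(∏ x ∈ Finset.univ.erase i, K x)) * h
        show K i * (∏ x ∈ Finset.univ.erase i, K x) * (X i.succ ^ Q - F i.succ) ∈ _
        rw [e]
        exact Ideal.mul_mem_left _ _ (Ideal.subset_span (Set.mem_insert_of_mem _ ⟨i, rfl⟩))
    · rw [mul_zero]
      exact Ideal.zero_mem _
    · intro x y _ _ hx hy
      rw [mul_add]
      exact Ideal.add_mem _ hx hy
    · intro a x _ hx
      rw [smul_eq_mul, mul_left_comm]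
      exact Ideal.mul_mem_left _ _ hx
  -- the expansion
  have hKexp : ∏ i, K i = ∑ l : Fin N → Fin r,
      ∏ i : Fin N, (F i.succ ^ (l i : ℕ) * (X i.succ ^ Q) ^ (r - 1 - (l i : ℕ))) := by
    have h := Finset.prod_univ_sum (fun _ : Fin N => (Finset.univ : Finset (Fin r)))
      (fun (i : Fin N) (m : Fin r) => F i.succ ^ (m : ℕ) * (X i.succ ^ Q) ^ (r - 1 - (m : ℕ)))
    rw [Fintype.piFinset_univ] at h
    rw [← h]
    refine Finset.prod_congr rfl fun i _ => ?_
    rw [hK]
    exact Finset.sum_range fun m => F i.succ ^ m * (X i.succ ^ Q) ^ (r - 1 - m)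
  have huexp : u = ∑ l : Fin N → Fin r, ∑ j ∈ Finset.range r, Um P F c Q r l j := by
    rw [hu, hKexp, Finset.sum_mul]
    refine Finset.sum_congr rfl fun l _ => ?_
    unfold ep Um
    rw [Finset.sum_mul, Finset.mul_sum]
  -- degrees
  obtain ⟨C₀, hC₀⟩ : ∃ C₀, C₀ = γ + d * (r - 1) + Q * (N * (r - 1)) := ⟨_, rfl⟩
  have hdeg : ∀ (l : Fin N → Fin r) (j : ℕ), j < r →
      ((∑ i, (d * (l i : ℕ) + Q * (r - 1 - (l i : ℕ)))) + (d * (r - 1 - j) + Q * j + γ)) +
        q * ∑ i, (l i : ℕ) = C₀ + q * j := by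
    intro l j hj
    have h1 := deg_sum d Q l
    have h2 : d * (r - 1 - j) + d * j = d * (r - 1) := by
      rw [← mul_add]
      congr 1
      omega
    rw [hQ] at h1 hC₀ ⊢
    rw [hC₀]
    generalize ∑ i, (l i : ℕ) = s at *
    generalize (∑ i, (d * (l i : ℕ) + (d + q) * (r - 1 - (l i : ℕ)))) = S at *
    linarith
  have hDle : ∀ (l : Fin N → Fin r) (j : ℕ), j < r →
      (∑ i, (d * (l i : ℕ) + Q * (r - 1 - (l i : ℕ)))) + (d * (r - 1 - j) + Q * j + γ) ≤
        C₀ + q * (r - 1) := by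
    intro l j hj
    have h1 := hdeg l j hj
    have h2 : q * j ≤ q * (r - 1) := Nat.mul_le_mul_left q (by omega)
    omega
  have hUh := Um_hom P F c Q r d γ hP hF hc
  have hutd : u.totalDegree ≤ C₀ + q * (r - 1) := by
    rw [huexp]
    refine totalDegree_finsetSum_le fun l _ => totalDegree_finsetSum_le fun j hj => ?_
    exact (hUh l j).totalDegree_le.trans (hDle l j (Finset.mem_range.1 hj))
  -- the bounded representation
  obtain ⟨g, G, hrep, hG⟩ := hBRL N r (Q * r) (d * r) (C₀ + q * (r - 1)) κ P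
    (fun i => F i.succ ^ r) u hP hPm (fun i => ((hF i.succ).pow r).totalDegree_le)
    (Nat.mul_lt_mul_of_pos_right (by omega) (by omega)) humem hutd
  -- the component of degree `C₀`
  have hcomp1 : homogeneousComponent C₀ u =
      ∑ l : Ix N r, gl P F c l * (X 0 ^ (sz l) * ∏ i, X i.succ ^ (r - 1 - (l.1 i : ℕ))) ^ Q := by
    rw [huexp, map_sum]
    have h1 : ∀ l : Fin N → Fin r, homogeneousComponent C₀
        (∑ j ∈ Finset.range r, Um P F c Q r l j) =
        if ∑ i, (l i : ℕ) < r then Um P F c Q r l (∑ i, (l i : ℕ)) else 0 := by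
      intro l
      rw [map_sum]
      have h2 : ∀ j ∈ Finset.range r, homogeneousComponent C₀ (Um P F c Q r l j) =
          if j = ∑ i, (l i : ℕ) then Um P F c Q r l j else 0 := by
        intro j hj
        rw [homogeneousComponent_of_mem ((mem_homogeneousSubmodule _ _).2 (hUh l j))]
        have h3 := hdeg l j (Finset.mem_range.1 hj)
        by_cases hjs : j = ∑ i, (l i : ℕ)
        · rw [if_pos hjs, if_pos]
          rw [← hjs] at h3
          omega
        · rw [if_neg hjs, if_neg]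
          intro h4
          rw [← h4] at h3
          have h5 : q * ∑ i, (l i : ℕ) = q * j := by omega
          exact hjs (Nat.eq_of_mul_eq_mul_left hq0 h5).symm
      rw [Finset.sum_congr rfl h2, Finset.sum_ite_eq']
      simp only [Finset.mem_range]
    rw [Finset.sum_congr rfl fun l _ => h1 l, ← Finset.sum_filter]
    rw [Finset.sum_subtype (Finset.univ.filter fun l : Fin N → Fin r => ∑ i, (l i : ℕ) < r)
      (p := fun l : Fin N → Fin r => ∑ i, (l i : ℕ) < r) (fun l => by simp)]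
    refine Finset.sum_congr rfl fun l _ => ?_
    show Um P F c Q r l.1 (sz l) = _
    unfold Um gl
    rw [map_mul, map_prod, Finset.prod_mul_distrib, mul_pow, ← Finset.prod_pow, ← pow_mul]
    have h6 : ∀ i : Fin N, aeval F ((X i.succ : Po (N + 1) κ) ^ (l.1 i : ℕ)) =
        F i.succ ^ (l.1 i : ℕ) := by
      intro i
      rw [map_pow, aeval_X]
    have h7 : ∀ i : Fin N, ((X i.succ : Po (N + 1) κ) ^ (r - 1 - (l.1 i : ℕ))) ^ Q =
        (X i.succ ^ Q) ^ (r - 1 - (l.1 i : ℕ)) := by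
      intro i
      rw [← pow_mul, ← pow_mul, mul_comm]
    rw [Finset.prod_congr rfl fun i _ => h6 i, Finset.prod_congr rfl fun i _ => h7 i,
      mul_comm (sz l) Q]
    ring
  rw [← hcomp1, hrep, map_add, map_sum]
  have hsub : ∀ A : Po (N + 1) κ, A ∈ (insert P (Set.range fun i : Fin N =>
      (X i.succ : Po (N + 1) κ) ^ (Q * r))) → Ideal.span {A} ≤ Ideal.span (insert P
        (Set.range fun i : Fin N => (X i.succ : Po (N + 1) κ) ^ (Q * r))) := by
    intro A hA
    exact Ideal.span_mono (Set.singleton_subset_iff.2 hA)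
  refine Ideal.add_mem _ ?_ (Ideal.sum_mem _ fun i _ => ?_)
  · exact hsub P (Set.mem_insert _ _) (hc_mem P g r C₀ hP)
  · have h8 : homogeneousComponent C₀ (F i.succ ^ r * G i) = 0 := by
      rcases hG i with h | h
      · rw [h, mul_zero, map_zero]
      · refine homogeneousComponent_eq_zero _ _ (lt_of_le_of_lt (totalDegree_mul _ _) ?_)
        have h9 := ((hF i.succ).pow r).totalDegree_le
        have h10 : Q * r = d * r + (q * (r - 1) + q) := by
          obtain ⟨r', rfl⟩ : ∃ r', r = r' + 1 := ⟨r - 1, by omega⟩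
          rw [hQ, Nat.add_sub_cancel]
          ring
        omega
    rw [sub_mul, map_sub, h8, sub_zero]
    exact hsub _ (Set.mem_insert_of_mem _ ⟨i, rfl⟩)
      (hc_mem _ (G i) (Q * r) C₀ (isHomogeneous_X_pow i.succ (Q * r)))

end Pool.Agent.H35.HX
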